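import Pool.Agent.H84.BR.ClaimDefs
import Pool.Agent.H82.PD.Chain

set_option autoImplicit false

namespace Pool.Agent.Results.MP_ee74d2_an.PositiveData

open MeasureTheory Set SchwartzMap Pool.Agent.H84.BR.CD
open scoped NNReal ENNReal

/-- The inequality of Q1 in all dimensions `d ≥ 3` for data controlled from below: with
`J = (I-Δ)^{1/2}` and `s_p = (d-1)(1/2-1/p)`, if `J^s u₀ ≥ -g` and `J^{s-1} u₁ ≥ -g` with `g ≥ 0`, then
the `L^p` norm of the solution is bounded by the conjectured norm of the data and the norm of `g` in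
`L^p_{s_p-σ-s}`. All `p > 2`; for `p ≥ 2d/(d-1)` all `σ < 1/p` are allowed. -/
theorem result (d : ℕ) (hd : 3 ≤ d) (p σ s : ℝ) (hp : 2 < p) (hσ : 0 ≤ σ)
    (hσ' : σ * p < ((d : ℝ) - 2) * min 1 (p - 2))
    (hs : ((d : ℝ) - 1) * (1 / 2 - 1 / p) + σ * max (p - 2) (1 / (p - 2)) < s) :
    ∃ C : ℝ≥0, ∀ u₀ u₁ g : 𝓢(EE d, ℂ), (∀ x, (g x).im = 0 ∧ 0 ≤ (g x).re) →
      (∀ x, (besS s u₀ x + g x).im = 0 ∧ 0 ≤ (besS s u₀ x + g x).re) →
      (∀ x, (besS (s - 1) u₁ x + g x).im = 0 ∧ 0 ≤ (besS (s - 1) u₁ x + g x).re) →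
      solNorm p u₀ u₁ ≤
        C * (datN p σ u₀ u₁ + sobNorm p (((d : ℝ) - 1) * (1 / 2 - 1 / p) - σ - s) g) := by
  have hp2 : 0 < p - 2 := by linarith
  have hm : 0 < min 1 (p - 2) := lt_min one_pos hp2
  have hM : 0 < max (p - 2) (1 / (p - 2)) := lt_max_of_lt_left hp2
  have h0 : 0 ≤ σ * max (p - 2) (1 / (p - 2)) := mul_nonneg hσ hM.le
  have e1 : min 1 (p - 2) * (1 + max (p - 2) (1 / (p - 2))) = p - 1 := by
    rcases le_total 1 (p - 2) with h | h
    · rw [min_eq_left h, max_eq_left]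
      · ring
      · rw [div_le_iff₀ hp2]
        nlinarith
    · rw [min_eq_right h, max_eq_right]
      · field_simp
        ring
      · rw [le_div_iff₀ hp2]
        nlinarith
  refine Pool.Agent.H82.PD.pfin d p σ s hd hp hσ' (by linarith) ?_
  calc σ * (p - 1) = (σ + σ * max (p - 2) (1 / (p - 2))) * min 1 (p - 2) := by
        rw [← e1]
        ring
    _ < (s + σ - ((d : ℝ) - 1) * (1 / 2 - 1 / p)) * min 1 (p - 2) := by
        refine mul_lt_mul_of_pos_right ?_ hm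
        linarith

end Pool.Agent.Results.MP_ee74d2_an.PositiveData
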